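import Pool.Agent.NBT.StmtsA

/-!
# NBT row TBE (existence of a minimal family with boxes of constant dimensions)
-/

set_option autoImplicit false

open Matrix Filter Topology

namespace Pool.Agent.NBT.H43

open Pool.Agent.PFS Pool.Agent.PFJ Pool.Agent.NBT

theorem tbe (hCMX : CmxStmt) (hMNX : MnxStmt) : TbeStmt := by
  intro n C Γ Γ₀ K hcc h3 hmax FF hFF w0 c0 hw0 hbox
  obtain ⟨T1, c, hTB, hsub, hne, hc⟩ := hCMX n C Γ Γ₀ K hcc h3 hmax FF hFF w0 c0 hw0 hbox
  obtain ⟨T, hfam, hmnl, hT1, hTne⟩ := hMNX n C Γ Γ₀ K hcc (by omega) T1 hTB.toFAM hne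
  exact ⟨T, c,
    { toFAM := hfam
      cc := hTB.cc
      three := hTB.three
      maxc := hTB.maxc
      box := fun w hw I => hTB.box w (hT1 w hw) I
      dim := fun w hw I => hTB.dim w (hT1 w hw) I },
    hmnl, fun w hw => hsub w (hT1 w hw), hTne, hc⟩

end Pool.Agent.NBT.H43
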